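import Pool.Agent.H577R3.RM.Stmts
import Pool.Agent.Helper777.Prof.P_magnus_ker

/-!
The commutator subgroup is torsion-free over Laurent polynomials (task RM-TF).
-/

set_option autoImplicit false

namespace Pool.Agent.H595R3.RMTF

open Pool.Agent.Helper777.Prof Pool.Agent.H577R3 Pool.Agent.H577R3.RM
open scoped commutatorElement

variable {n m : ℕ} (r : Fin m → FG n)

/-- the ideal -/
noncomputable abbrev JJ : Ideal (Lam n) := Ideal.span (Set.range fun j => X (abv (r j)) - 1)

/-- the quotient ring -/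
noncomputable abbrev SS := Lam n ⧸ JJ r

/-- monomials in the quotient -/
noncomputable def ee (u : Zm n) : SS r := Ideal.Quotient.mk (JJ r) (MonoidAlgebra.of ℤ (Zm n) u)

/-- Fox vectors in the quotient -/
noncomputable def fq (g : FG n) : Fin n → SS r := fun l => Ideal.Quotient.mk (JJ r) (foxF g l)

theorem ee_mul (u v : Zm n) : ee r (u * v) = ee r u * ee r v := by
  unfold ee
  rw [map_mul, map_mul]

theorem ee_one : ee r 1 = 1 := by
  unfold ee
  rw [map_one, map_one]

theorem ee_inv (u : Zm n) (h : ee r u = 1) : ee r u⁻¹ = 1 := by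
  have h1 := ee_mul r u u⁻¹
  rw [mul_inv_cancel, ee_one, h, one_mul] at h1
  exact h1.symm

theorem fox_mul (g h : FG n) (l : Fin n) :
    foxF (g * h) l = foxF g l + MonoidAlgebra.of ℤ (Zm n) (abF n g) * foxF h l := by
  unfold foxF
  rw [map_mul, Wr.mul_v, mag_m, Pi.add_apply, Pi.smul_apply, smul_eq_mul]

theorem fq_mul (g h : FG n) : fq r (g * h) = fq r g + ee r (abF n g) • fq r h := by
  funext l
  simp only [fq, Pi.add_apply, Pi.smul_apply, smul_eq_mul, ee]
  rw [fox_mul, map_add, map_mul]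

theorem fq_one : fq r 1 = 0 := by
  have h := fq_mul r 1 1
  rw [mul_one, map_one, ee_one, one_smul] at h
  exact left_eq_add.1 h

theorem fq_inv (g : FG n) : fq r g⁻¹ = -(ee r (abF n g)⁻¹ • fq r g) := by
  have h := fq_mul r g⁻¹ g
  rw [inv_mul_cancel, fq_one, map_inv] at h
  exact eq_neg_of_add_eq_zero_left h.symm

theorem fq_conj (g x : FG n) :
    fq r (g * x * g⁻¹) = (1 - ee r (abF n x)) • fq r g + ee r (abF n g) • fq r x := by
  rw [fq_mul, fq_mul, fq_inv, smul_neg, smul_smul, ← ee_mul, map_mul]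
  have e : abF n g * abF n x * (abF n g)⁻¹ = abF n x := by
    rw [mul_comm (abF n g), mul_assoc, mul_inv_cancel, mul_one]
  rw [e, sub_smul, one_smul]
  abel

theorem zs (z : Fin n → SS r) : (0 : SS r) • z = 0 := by
  funext l
  exact zero_mul (z l)

theorem fq_conj1 (g x : FG n) (hx : ee r (abF n x) = 1) :
    fq r (g * x * g⁻¹) = ee r (abF n g) • fq r x := by
  have h : (1 - (1 : SS r)) • fq r g = 0 := by
    rw [sub_self]
    exact zs r _
  rw [fq_conj, hx, h, zero_add]

/-- the elements whose Fox vector is a combination of the Fox vectors of the relators -/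
noncomputable def T1 : Subgroup (FG n) where
  carrier := {x | ee r (abF n x) = 1 ∧
    fq r x ∈ Submodule.span (SS r) (Set.range fun j => fq r (r j))}
  mul_mem' := by
    rintro a b ⟨ha, ha'⟩ ⟨hb, hb'⟩
    refine ⟨by rw [map_mul, ee_mul, ha, hb, one_mul], ?_⟩
    rw [fq_mul]
    exact Submodule.add_mem _ ha' (Submodule.smul_mem _ _ hb')
  one_mem' := ⟨by rw [map_one, ee_one], by rw [fq_one]; exact Submodule.zero_mem _⟩
  inv_mem' := by
    rintro a ⟨ha, ha'⟩
    refine ⟨by rw [map_inv, ee_inv r _ ha], ?_⟩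
    rw [fq_inv]
    exact Submodule.neg_mem _ (Submodule.smul_mem _ _ ha')

theorem mem_T1 (x : FG n) : x ∈ T1 r ↔ ee r (abF n x) = 1 ∧
    fq r x ∈ Submodule.span (SS r) (Set.range fun j => fq r (r j)) := Iff.rfl

theorem T1_normal : (T1 r).Normal := by
  refine ⟨?_⟩
  rintro x ⟨h1, h2⟩ g
  refine ⟨?_, ?_⟩
  · rw [map_mul, map_mul, map_inv, mul_comm (abF n g), mul_assoc, mul_inv_cancel, mul_one]
    exact h1
  · rw [fq_conj1 r g x h1]
    exact Submodule.smul_mem _ _ h2

theorem ee_rel (j : Fin m) : ee r (abF n (r j)) = 1 := by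
  have h : (X (abv (r j)) - 1 : Lam n) ∈ JJ r := Ideal.subset_span ⟨j, rfl⟩
  have h1 := Ideal.Quotient.eq_zero_iff_mem.2 h
  rw [map_sub, map_one, sub_eq_zero] at h1
  exact h1

theorem ab_derived {a : FG n} (ha : a ∈ derivedSeries (FG n) 1) : abF n a = 1 := by
  rw [derivedSeries_one] at ha
  exact Abelianization.commutator_subset_ker (abF n) ha

theorem relN_le : relN r ≤ T1 r := by
  haveI := T1_normal r
  unfold relN
  refine sup_le (Subgroup.normalClosure_le_normal ?_) ?_
  · rintro _ ⟨j, rfl⟩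
    exact ⟨ee_rel r j, Submodule.subset_span ⟨j, rfl⟩⟩
  · rw [derivedSeries_succ, Subgroup.commutator_le]
    intro a ha b hb
    have ha1 := ab_derived ha
    have hb1 := ab_derived hb
    rw [mem_T1, commutatorElement_def]
    refine ⟨?_, ?_⟩
    · simp only [map_mul, map_inv, ha1, hb1, inv_one, mul_one]
      exact ee_one r
    · have : fq r (a * b * a⁻¹ * b⁻¹) = 0 := by
        simp only [fq_mul, fq_inv, map_mul, map_inv, ha1, hb1, inv_one, mul_one, ee_one, one_smul]
        abel
      rw [this]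
      exact Submodule.zero_mem _

/-! ### the converse -/

/-- the normal closure of the relators -/
abbrev NC : Subgroup (FG n) := Subgroup.normalClosure (Set.range r)

theorem ee_NC {y : FG n} (hy : y ∈ NC r) : ee r (abF n y) = 1 :=
  (relN_le r (Subgroup.mem_sup_left hy : y ∈ relN r)).1

theorem abF_surj : Function.Surjective (abF n) := by
  intro u
  have h : ∀ i : Fin n, abF n (FreeGroup.of i) = zb i := by
    intro i
    unfold abF
    rw [FreeGroup.lift_apply_of]
  refine ⟨(List.ofFn fun i : Fin n => FreeGroup.of i ^ (Multiplicative.toAdd u i)).prod, ?_⟩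
  rw [map_list_prod, List.map_ofFn, List.prod_ofFn]
  simp only [Function.comp, map_zpow, h]
  apply Multiplicative.toAdd.injective
  rw [toAdd_prod]
  funext l
  simp only [toAdd_zpow, toAdd_ofAdd, Finset.sum_apply, Pi.smul_apply, smul_eq_mul]
  rw [Finset.sum_eq_single l]
  · simp
  · intro i _ hi
    rw [Pi.single_eq_of_ne (Ne.symm hi), mul_zero]
  · simp

/-- reachable vectors -/
def Rch (z : Fin n → SS r) : Prop := ∃ y ∈ NC r, fq r y = z

theorem Rch.zero : Rch r 0 := ⟨1, one_mem _, fq_one r⟩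

theorem Rch.add {z z' : Fin n → SS r} (h : Rch r z) (h' : Rch r z') : Rch r (z + z') := by
  obtain ⟨y, hy, rfl⟩ := h
  obtain ⟨y', hy', rfl⟩ := h'
  exact ⟨y * y', mul_mem hy hy', by rw [fq_mul, ee_NC r hy, one_smul]⟩

theorem Rch.neg {z : Fin n → SS r} (h : Rch r z) : Rch r (-z) := by
  obtain ⟨y, hy, rfl⟩ := h
  exact ⟨y⁻¹, inv_mem hy, by rw [fq_inv, ee_inv r _ (ee_NC r hy), one_smul]⟩

theorem Rch.ee {z : Fin n → SS r} (h : Rch r z) (u : Zm n) : Rch r (ee r u • z) := by
  obtain ⟨y, hy, rfl⟩ := h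
  obtain ⟨g, hg⟩ := abF_surj u
  refine ⟨g * y * g⁻¹, Subgroup.normalClosure_normal.conj_mem _ hy g, ?_⟩
  rw [fq_conj1 r g y (ee_NC r hy), hg]

theorem Rch.zsmul {z : Fin n → SS r} (h : Rch r z) (c : ℤ) : Rch r (c • z) := by
  induction c using Int.induction_on with
  | zero => rw [zero_zsmul]; exact Rch.zero r
  | succ i ih => rw [add_zsmul, one_zsmul]; exact ih.add r h
  | pred i ih => rw [sub_zsmul, one_zsmul]; exact ih.add r (h.neg r)

theorem Rch.smul {z : Fin n → SS r} (h : Rch r z) (s : SS r) : Rch r (s • z) := by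
  obtain ⟨f, rfl⟩ := Ideal.Quotient.mk_surjective s
  induction f using MonoidAlgebra.induction_linear with
  | zero =>
    rw [map_zero]
    have h0 := zs r z
    exact h0 ▸ Rch.zero r
  | add f g hf hg => rw [map_add, add_smul]; exact hf.add r hg
  | single u c =>
    have e : (MonoidAlgebra.single u c : Lam n) = c • MonoidAlgebra.of ℤ (Zm n) u := by
      rw [MonoidAlgebra.of_apply, MonoidAlgebra.smul_single, smul_eq_mul, mul_one]
    rw [e, map_zsmul, smul_assoc]
    exact (h.ee r u).zsmul r c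

theorem Rch.all {z : Fin n → SS r}
    (hz : z ∈ Submodule.span (SS r) (Set.range fun j => fq r (r j))) : Rch r z := by
  induction hz using Submodule.span_induction with
  | mem z hz =>
    obtain ⟨j, rfl⟩ := hz
    exact ⟨r j, Subgroup.subset_normalClosure ⟨j, rfl⟩, rfl⟩
  | zero => exact Rch.zero r
  | add x y _ _ h1 h2 => exact h1.add r h2
  | smul s x _ h1 => exact h1.smul r s

/-- the lattice of the relators -/
abbrev VV : Subgroup (Zm n) := Subgroup.closure (Set.range fun j => abF n (r j))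

/-- the abelianised presentation -/
noncomputable abbrev pi0 : FG n →* Zm n ⧸ VV r := (QuotientGroup.mk' (VV r)).comp (abF n)

theorem pi0_surj : Function.Surjective (pi0 r) :=
  (QuotientGroup.mk'_surjective _).comp abF_surj

/-- the ring homomorphism -/
noncomputable abbrev pp : Lam n →+* MonoidAlgebra ℤ (Zm n ⧸ VV r) :=
  MonoidAlgebra.mapDomainRingHom ℤ (QuotientGroup.mk' (VV r))

theorem pp_of (u : Zm n) : pp r (MonoidAlgebra.of ℤ (Zm n) u) =
    MonoidAlgebra.of ℤ (Zm n ⧸ VV r) (QuotientGroup.mk' (VV r) u) := by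
  simp [MonoidAlgebra.of_apply, MonoidAlgebra.mapDomainRingHom_apply,
    MonoidAlgebra.mapDomain_single]

theorem mag_pi0 (w : FG n) (l : Fin n) : (mag (pi0 r) w).v l = pp r (foxF w l) := by
  have h : mag (pi0 r) = (Wr.map (QuotientGroup.mk' (VV r)) (pp r) (pp_of r)).comp
      (mag (abF n)) := by
    apply FreeGroup.ext_hom
    intro i
    rw [MonoidHom.comp_apply]
    unfold mag
    rw [FreeGroup.lift_apply_of, FreeGroup.lift_apply_of]
    apply Wr.ext
    · funext l
      change (Pi.single i 1 : Fin n → MonoidAlgebra ℤ (Zm n ⧸ VV r)) l =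
        pp r ((Pi.single i 1 : Fin n → Lam n) l)
      by_cases hl : l = i
      · subst hl
        rw [Pi.single_eq_same, Pi.single_eq_same, map_one]
      · rw [Pi.single_eq_of_ne hl, Pi.single_eq_of_ne hl, map_zero]
    · rfl
  rw [h]
  rfl

theorem JJ_le : JJ r ≤ RingHom.ker (pp r) := by
  rw [Ideal.span_le]
  rintro _ ⟨j, rfl⟩
  change pp r (MonoidAlgebra.of ℤ (Zm n) (abF n (r j)) - 1) = 0
  rw [map_sub, pp_of, map_one]
  have h : QuotientGroup.mk' (VV r) (abF n (r j)) = 1 := by
    rw [QuotientGroup.mk'_apply, QuotientGroup.eq_one_iff]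
    exact Subgroup.subset_closure ⟨j, rfl⟩
  rw [h, map_one, sub_self]

theorem ker_pi0 : (pi0 r).ker ≤ relA r := by
  intro x hx
  -- the homomorphism from the free abelian group
  letI : CommGroup (FG n ⧸ relA r) :=
    { (inferInstance : Group (FG n ⧸ relA r)) with
      mul_comm := by
        intro a b
        obtain ⟨a, rfl⟩ := QuotientGroup.mk_surjective a
        obtain ⟨b, rfl⟩ := QuotientGroup.mk_surjective b
        rw [← QuotientGroup.mk_mul, ← QuotientGroup.mk_mul, QuotientGroup.eq]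
        apply Subgroup.mem_sup_right
        rw [derivedSeries_one]
        have e : (a * b)⁻¹ * (b * a) = ⁅b⁻¹, a⁻¹⁆ := by
          rw [commutatorElement_def]
          group
        rw [e]
        exact Subgroup.commutator_mem_commutator (Subgroup.mem_top _) (Subgroup.mem_top _) }
  let ψ : Zm n →* FG n ⧸ relA r :=
    { toFun := fun u => ∏ i, (QuotientGroup.mk (FreeGroup.of i) : FG n ⧸ relA r) ^
        (Multiplicative.toAdd u i)
      map_one' := by simp
      map_mul' := by
        intro u v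
        rw [← Finset.prod_mul_distrib]
        refine Finset.prod_congr rfl fun i _ => ?_
        rw [toAdd_mul, Pi.add_apply, zpow_add] }
  have h1 : ψ.comp (abF n) = QuotientGroup.mk' (relA r) := by
    apply FreeGroup.ext_hom
    intro i
    rw [MonoidHom.comp_apply]
    unfold abF
    rw [FreeGroup.lift_apply_of]
    change ∏ l, (QuotientGroup.mk (FreeGroup.of l) : FG n ⧸ relA r) ^
      ((Pi.single i 1 : Fin n → ℤ) l) = QuotientGroup.mk (FreeGroup.of i)
    rw [Finset.prod_eq_single i]
    · rw [Pi.single_eq_same, zpow_one]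
    · intro l _ hl
      rw [Pi.single_eq_of_ne hl, zpow_zero]
    · simp
  have h2 : VV r ≤ ψ.ker := by
    rw [Subgroup.closure_le]
    rintro _ ⟨j, rfl⟩
    change ψ (abF n (r j)) = 1
    rw [← MonoidHom.comp_apply, h1, QuotientGroup.mk'_apply, QuotientGroup.eq_one_iff]
    exact Subgroup.mem_sup_left (Subgroup.subset_normalClosure ⟨j, rfl⟩)
  have h3 : abF n x ∈ VV r := by
    rw [MonoidHom.mem_ker, MonoidHom.comp_apply, QuotientGroup.mk'_apply,
      QuotientGroup.eq_one_iff] at hx
    exact hx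
  have h4 : ψ (abF n x) = 1 := h2 h3
  rw [← MonoidHom.comp_apply, h1, QuotientGroup.mk'_apply, QuotientGroup.eq_one_iff] at h4
  exact h4

theorem comm_relA : ⁅relA r, relA r⁆ ≤ relN r := by
  rw [Subgroup.commutator_le]
  intro a ha b hb
  unfold relA at ha hb
  rw [Subgroup.mem_sup_of_normal_left] at ha hb
  obtain ⟨a1, ha1, a2, ha2, rfl⟩ := ha
  obtain ⟨b1, hb1, b2, hb2, rfl⟩ := hb
  have hN : ∀ y ∈ NC r, (QuotientGroup.mk y : FG n ⧸ relN r) = 1 := by
    intro y hy
    rw [QuotientGroup.eq_one_iff]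
    exact Subgroup.mem_sup_left hy
  rw [← QuotientGroup.eq_one_iff]
  have e : (QuotientGroup.mk ⁅a1 * a2, b1 * b2⁆ : FG n ⧸ relN r) = QuotientGroup.mk ⁅a2, b2⁆ := by
    simp only [commutatorElement_def, QuotientGroup.mk_mul, QuotientGroup.mk_inv, hN a1 ha1,
      hN b1 hb1, one_mul]
  rw [e, QuotientGroup.eq_one_iff]
  apply Subgroup.mem_sup_right
  rw [derivedSeries_succ]
  exact Subgroup.commutator_mem_commutator ha2 hb2

theorem mem_relN_of {x : FG n} (hx : abF n x ∈ VV r)
    (hz : fq r x ∈ Submodule.span (SS r) (Set.range fun j => fq r (r j))) : x ∈ relN r := by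
  obtain ⟨y, hy, hyz⟩ := Rch.all r hz
  have hyN : y ∈ relN r := Subgroup.mem_sup_left hy
  -- `x y⁻¹`
  have hee : ∀ u ∈ VV r, ee r u = 1 := by
    intro u hu
    induction hu using Subgroup.closure_induction with
    | mem u hu =>
      obtain ⟨j, rfl⟩ := hu
      exact ee_rel r j
    | one => exact ee_one r
    | mul a b _ _ ha hb => rw [ee_mul, ha, hb, one_mul]
    | inv a _ ha => exact ee_inv r a ha
  have h0 : fq r (x * y⁻¹) = 0 := by
    rw [fq_mul, fq_inv, hee _ hx, ee_inv r _ (ee_NC r hy), one_smul, one_smul, hyz,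
      add_neg_cancel]
  have hyV : abF n y ∈ VV r := by
    have h1 : NC r ≤ (VV r).comap (abF n) := by
      apply Subgroup.normalClosure_le_normal
      rintro _ ⟨j, rfl⟩
      exact Subgroup.subset_closure ⟨j, rfl⟩
    exact h1 hy
  have h1 : mag (pi0 r) (x * y⁻¹) = 1 := by
    apply Wr.ext
    · funext l
      rw [mag_pi0]
      have h2 : Ideal.Quotient.mk (JJ r) (foxF (x * y⁻¹) l) = 0 := congrFun h0 l
      rw [Ideal.Quotient.eq_zero_iff_mem] at h2
      exact JJ_le r h2
    · rw [mag_m]
      change QuotientGroup.mk' (VV r) (abF n (x * y⁻¹)) = 1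
      rw [QuotientGroup.mk'_apply, QuotientGroup.eq_one_iff, map_mul, map_inv]
      exact mul_mem hx (inv_mem hyV)
  have h2 := magnus_ker (pi0 r) (pi0_surj r) _ h1
  have h3 : x * y⁻¹ ∈ relN r := comm_relA r (Subgroup.commutator_mono (ker_pi0 r) (ker_pi0 r) h2)
  have h4 := mul_mem h3 hyN
  rwa [inv_mul_cancel_right] at h4

/-! ### products of conjugates -/

theorem fq_zpow {a : FG n} (ha : abF n a = 1) (c : ℤ) : fq r (a ^ c) = c • fq r a := by
  induction c using Int.induction_on with
  | zero => rw [zpow_zero, fq_one, zero_smul]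
  | succ i ih =>
    rw [zpow_add, zpow_one, fq_mul, ih, map_zpow, ha, one_zpow, ee_one, one_smul, add_smul,
      one_smul]
  | pred i ih =>
    rw [zpow_sub, zpow_one, fq_mul, ih, map_zpow, ha, one_zpow, ee_one, one_smul, fq_inv, ha,
      inv_one, ee_one, one_smul, sub_smul, one_smul, sub_eq_add_neg]

theorem fq_list (L : List (FG n)) (h : ∀ x ∈ L, abF n x = 1) :
    fq r L.prod = (L.map (fq r)).sum := by
  induction L with
  | nil => simp [fq_one]
  | cons x L ih =>
    rw [List.prod_cons, fq_mul, h x (by simp), ee_one, one_smul,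
      ih (fun y hy => h y (List.mem_cons_of_mem _ hy)), List.map_cons, List.sum_cons]

theorem taskTF (h : TaskTFALG) : TaskTF := by
  intro n m r C hC hR N g c a ha hgC hinj hc hprod
  have ha1 : abF n a = 1 := ab_derived ha
  have h1 := (relN_le r hprod).2
  have hx1 : ∀ s, abF n (g s * a ^ c s * (g s)⁻¹) = 1 := by
    intro s
    rw [map_mul, map_mul, map_inv, map_zpow, ha1, one_zpow, mul_one, mul_inv_cancel]
  rw [fq_list r _ (by
    intro x hx
    rw [List.mem_ofFn] at hx
    obtain ⟨s, rfl⟩ := hx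
    exact hx1 s), List.map_ofFn, List.sum_ofFn] at h1
  have h2 : ∀ s, fq r (g s * a ^ c s * (g s)⁻¹) =
      (Ideal.Quotient.mk (JJ r) (c s • X (abv (g s)))) • fq r a := by
    intro s
    rw [fq_conj1 r _ _ (by rw [map_zpow, ha1, one_zpow, ee_one]),
      fq_zpow r ha1, map_zsmul, smul_assoc, smul_comm]
    rfl
  have h3 : ∑ s, (fq r ∘ fun s => g s * a ^ c s * (g s)⁻¹) s =
      (Ideal.Quotient.mk (JJ r) (∑ s, c s • X (abv (g s)))) • fq r a := by
    rw [map_sum, Finset.sum_smul]
    exact Finset.sum_congr rfl fun s _ => h2 s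
  rw [h3, Submodule.mem_span_range_iff_exists_fun] at h1
  obtain ⟨α, hα⟩ := h1
  choose αl hαl using fun j => Ideal.Quotient.mk_surjective (α j)
  obtain ⟨β, hβ⟩ := h n m (fun j => abv (r j)) C (fun j l => foxF (r j) l) hC
    (fun K _ θ h1 h2 => hR K θ h1 h2) N (fun s => abv (g s)) c (fun s l hl => hgC s l hl)
    (by
      intro s s' hs
      by_contra hne
      exact hinj s s' hne hs) hc (fun l => foxF a l) αl (by
      intro l
      have e1 : Ideal.Quotient.mk (JJ r) (∑ j, αl j * foxF (r j) l) =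
          ∑ j, α j * fq r (r j) l := by
        rw [map_sum]
        refine Finset.sum_congr rfl fun j _ => ?_
        rw [map_mul, hαl]
        rfl
      have h4 := congrFun hα l
      rw [Finset.sum_apply] at h4
      simp only [Pi.smul_apply, smul_eq_mul] at h4
      rw [← Ideal.Quotient.eq_zero_iff_mem, map_sub, sub_eq_zero, map_mul]
      exact h4.symm.trans e1.symm)
  refine mem_relN_of r (by rw [ha1]; exact one_mem _) ?_
  rw [Submodule.mem_span_range_iff_exists_fun]
  refine ⟨fun j => Ideal.Quotient.mk (JJ r) (β j), ?_⟩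
  funext l
  have h5 := hβ l
  rw [← Ideal.Quotient.eq_zero_iff_mem, map_sub, sub_eq_zero, map_sum] at h5
  rw [Finset.sum_apply]
  simp only [Pi.smul_apply, smul_eq_mul]
  rw [show fq r a l = Ideal.Quotient.mk (JJ r) (foxF a l) from rfl, h5]
  refine Finset.sum_congr rfl fun j _ => ?_
  rw [map_mul]
  rfl

end Pool.Agent.H595R3.RMTF
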